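import Pool.Agent.H71.NB.Win
import Pool.Agent.H11.NW.Pnt

/-!
# HF PntS: prime number theorem sums (owner helper76)

For `f : ℕ → ℝ` let `Th f k = ∑_{p ≤ k} f p log p` and `Qd f Q = ∑_{p ≤ Q} (Q - p) f p log p`
(sums over primes).  `Qd f Q = ∑_{k < Q} Th f k`, so `Th f k = c k + o(N)` uniformly for `k ≤ N` gives
`Qd f Q = c Q ^ 2 / 2 + o(N ^ 2)` uniformly for `Q ≤ N`.

Proofs.
* `Qd_eq`: exchange the sums: `(Q - p) = #{k : p ≤ k < Q}`.
* `Th_one`: `NW.theta_div_tendsto` (`Chebyshev.theta n / n → 1`): for `k ≥ k0` the error is at most `ε k`,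
  for `k < k0` it is at most `theta k0 + k0 ≤ ε N`.  (Or `psi_ap` as in `NB.mass_le`.)
* `Th_chi`: `NB.S_bound`, `NB.Lam_prime_diff`, `psi_sub_theta_small` as in `NB.rc_sum`
  (only the prime `2` is treated differently by `psi D` and `jacobiSym D`).
* `Qd_one`, `Qd_chi`: `Qd_eq` and `∑_{k < Q} k = Q (Q - 1) / 2`.
-/

set_option autoImplicit false

namespace Pool.Agent.H78.HF

open Finset Filter

/-- `∑_{p ≤ k} f p log p` -/
noncomputable def Th (f : ℕ → ℝ) (k : ℕ) : ℝ := ∑ p ∈ (Icc 1 k).filter Nat.Prime, f p * Real.log p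

/-- `∑_{p ≤ Q} (Q - p) f p log p` -/
noncomputable def Qd (f : ℕ → ℝ) (Q : ℕ) : ℝ :=
  ∑ p ∈ (Icc 1 Q).filter Nat.Prime, ((Q : ℝ) - p) * (f p * Real.log p)

theorem PntS_Icc_succ (Q : ℕ) : Icc 1 (Q + 1) = insert (Q + 1) (Icc 1 Q) := by
  ext n
  simp only [mem_Icc, mem_insert]
  omega

theorem Qd_eq (f : ℕ → ℝ) (Q : ℕ) : Qd f Q = ∑ k ∈ range Q, Th f k := by
  induction Q with
  | zero => simp [Qd]
  | succ Q ih =>
    rw [sum_range_succ, ← ih]
    unfold Qd Th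
    rw [sum_filter, sum_filter, sum_filter, PntS_Icc_succ, sum_insert (by simp),
      ← sum_add_distrib]
    have h0 : (if Nat.Prime (Q + 1) then (((Q + 1 : ℕ) : ℝ) - ((Q + 1 : ℕ) : ℝ)) *
        (f (Q + 1) * Real.log ((Q + 1 : ℕ) : ℝ)) else 0) = 0 := by
      rw [sub_self, zero_mul, ite_self]
    rw [h0, zero_add]
    refine sum_congr rfl fun p _ => ?_
    split_ifs
    · push_cast
      ring
    · simp

theorem PntS_Icc (k : ℕ) : Icc 1 k = Ioc 0 k := by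
  ext n
  simp only [mem_Icc, mem_Ioc]
  omega

theorem Th_one (ε : ℝ) (hε : 0 < ε) : ∀ᶠ N : ℕ in atTop, ∀ k : ℕ, k ≤ N →
    |Th (fun _ => 1) k - k| ≤ ε * N := by
  filter_upwards [Pool.Agent.H71.NB.win_one ε hε] with N hN k hk
  have h := hN 0 k (Nat.zero_le k) hk
  unfold Th
  rw [PntS_Icc]
  simpa using h

theorem Th_chi (D : ℤ) (hD0 : D ≠ 0) (hD : ¬ IsSquare D) (ε : ℝ) (hε : 0 < ε) :
    ∀ᶠ N : ℕ in atTop, ∀ k : ℕ, k ≤ N → |Th (fun p => (jacobiSym D p : ℝ)) k| ≤ ε * N := by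
  have hl : Tendsto (fun N : ℕ => ε / 2 * (N : ℝ)) atTop atTop :=
    tendsto_natCast_atTop_atTop.const_mul_atTop (by positivity)
  filter_upwards [Pool.Agent.H71.NB.win_chi D hD0 hD (ε / 2) (by positivity),
    hl.eventually_ge_atTop (Real.log 2)] with N hN h2 k hk
  have hN0 : (0 : ℝ) ≤ N := Nat.cast_nonneg N
  have hJ : ∀ p : ℕ, |(jacobiSym D p : ℝ)| ≤ 1 := fun p => by
    have h := Pool.Agent.H71.NB.jac_vals D p
    exact abs_le.mpr ⟨by linarith [h.1], by linarith [h.2]⟩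
  unfold Th
  rcases lt_or_ge k 2 with hk2 | hk2
  · have he : (Icc 1 k).filter Nat.Prime = ∅ := by
      rw [filter_eq_empty_iff]
      intro p hp hpp
      have := hpp.two_le
      rw [mem_Icc] at hp
      omega
    rw [he, sum_empty, abs_zero]
    positivity
  · have he : (Icc 1 k).filter Nat.Prime = insert 2 ((Ioc 2 k).filter Nat.Prime) := by
      ext p
      simp only [mem_filter, mem_Icc, mem_insert, mem_Ioc]
      constructor
      · rintro ⟨⟨h3, h4⟩, h5⟩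
        have := h5.two_le
        by_cases h6 : p = 2
        · exact Or.inl h6
        · exact Or.inr ⟨⟨by omega, h4⟩, h5⟩
      · rintro (rfl | ⟨⟨h3, h4⟩, h5⟩)
        · exact ⟨⟨by omega, hk2⟩, Nat.prime_two⟩
        · exact ⟨⟨by omega, h4⟩, h5⟩
    rw [he, sum_insert (by simp)]
    have h3 := hN 2 k le_rfl hk2 hk
    have h4 : |((jacobiSym D 2 : ℤ) : ℝ) * Real.log ((2 : ℕ) : ℝ)| ≤ Real.log 2 := by
      rw [abs_mul, Nat.cast_ofNat, abs_of_nonneg (Real.log_nonneg (by norm_num : (1 : ℝ) ≤ 2))]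
      exact mul_le_of_le_one_left (Real.log_nonneg (by norm_num)) (hJ 2)
    refine (abs_add_le _ _).trans ?_
    have h5 : |((jacobiSym D ((2 : ℕ) : ℕ) : ℤ) : ℝ) * Real.log ((2 : ℕ) : ℝ)| ≤ Real.log 2 := h4
    calc _ ≤ Real.log 2 + ε / 2 * N := add_le_add h5 h3
      _ ≤ ε / 2 * N + ε / 2 * N := by linarith
      _ = ε * N := by ring

theorem Qd_one (ε : ℝ) (hε : 0 < ε) : ∀ᶠ N : ℕ in atTop, ∀ Q : ℕ, Q ≤ N →
    |Qd (fun _ => 1) Q - (Q : ℝ) ^ 2 / 2| ≤ ε * (N : ℝ) ^ 2 := by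
  have hl : Tendsto (fun N : ℕ => ε * (N : ℝ)) atTop atTop :=
    tendsto_natCast_atTop_atTop.const_mul_atTop hε
  filter_upwards [Th_one (ε / 2) (by positivity), hl.eventually_ge_atTop 1] with N hN h2 Q hQ
  have hN0 : (0 : ℝ) ≤ N := Nat.cast_nonneg N
  have hQN : (Q : ℝ) ≤ N := by exact_mod_cast hQ
  have hQ0 : (0 : ℝ) ≤ Q := Nat.cast_nonneg Q
  have h3 : ∑ k ∈ range Q, (k : ℝ) = (Q : ℝ) ^ 2 / 2 - Q / 2 := by
    clear hQ hQN hQ0
    induction Q with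
    | zero => simp
    | succ Q ih =>
      rw [sum_range_succ, ih]
      push_cast
      ring
  have h4 : |Qd (fun _ => 1) Q - ∑ k ∈ range Q, (k : ℝ)| ≤ ε / 2 * N * N := by
    rw [Qd_eq, ← sum_sub_distrib]
    calc |∑ k ∈ range Q, (Th (fun _ => 1) k - k)| ≤ ∑ k ∈ range Q, |Th (fun _ => 1) k - k| :=
          abs_sum_le_sum_abs _ _
      _ ≤ ∑ _k ∈ range Q, ε / 2 * N := sum_le_sum fun k hk =>
          hN k (by rw [mem_range] at hk; omega)
      _ = Q * (ε / 2 * N) := by rw [sum_const, card_range, nsmul_eq_mul]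
      _ ≤ N * (ε / 2 * N) := mul_le_mul_of_nonneg_right hQN (by positivity)
      _ = ε / 2 * N * N := by ring
  have h5 : (N : ℝ) ≤ ε * N * N := by nlinarith
  have h6 := abs_le.mp h4
  rw [h3] at h6
  rw [abs_le]
  constructor <;> nlinarith [h6.1, h6.2]

theorem Qd_chi (D : ℤ) (hD0 : D ≠ 0) (hD : ¬ IsSquare D) (ε : ℝ) (hε : 0 < ε) :
    ∀ᶠ N : ℕ in atTop, ∀ Q : ℕ, Q ≤ N → |Qd (fun p => (jacobiSym D p : ℝ)) Q| ≤ ε * (N : ℝ) ^ 2 := by
  filter_upwards [Th_chi D hD0 hD ε hε] with N hN Q hQ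
  have hN0 : (0 : ℝ) ≤ N := Nat.cast_nonneg N
  have hQN : (Q : ℝ) ≤ N := by exact_mod_cast hQ
  rw [Qd_eq]
  calc |∑ k ∈ range Q, Th (fun p => (jacobiSym D p : ℝ)) k|
      ≤ ∑ k ∈ range Q, |Th (fun p => (jacobiSym D p : ℝ)) k| := abs_sum_le_sum_abs _ _
    _ ≤ ∑ _k ∈ range Q, ε * N := sum_le_sum fun k hk => hN k (by rw [mem_range] at hk; omega)
    _ = Q * (ε * N) := by rw [sum_const, card_range, nsmul_eq_mul]
    _ ≤ N * (ε * N) := mul_le_mul_of_nonneg_right hQN (by positivity)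
    _ = ε * (N : ℝ) ^ 2 := by ring

end Pool.Agent.H78.HF
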